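import Pool.Agent.K1H80.KA.StmT

/-!
# Project KA (helper80), piece NB: a graph which is not bipartite contains an odd cycle
-/

set_option autoImplicit false

namespace Pool.Agent.K1H77.KA

/-- closed walks of length `L`, as functions -/
def Cl {W : Type} (H : SimpleGraph W) (L : ℕ) (f : ℕ → W) : Prop :=
  (∀ t, t < L → H.Adj (f t) (f (t + 1))) ∧ f L = f 0

theorem nb : Pool.Agent.KA.NBStm := by
  classical
  intro W _ H hH
  have h0 : ∃ L, Odd L ∧ ∃ f, Cl H L f := by
    rw [SimpleGraph.two_colorable_iff_forall_loop_even] at hH
    push Not at hH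
    obtain ⟨u, w, hw⟩ := hH
    refine ⟨w.length, ?_, w.getVert, ?_, ?_⟩
    · rwa [← Nat.not_even_iff_odd]
    · intro t ht
      exact w.adj_getVert_succ ht
    · rw [w.getVert_length, w.getVert_zero]
  obtain ⟨hodd, f, hf, hcl⟩ := Nat.find_spec h0
  have hmin : ∀ L, L < Nat.find h0 → Odd L → ∀ g, ¬ Cl H L g := by
    intro L hL ho g hg
    exact Nat.find_min h0 hL ⟨ho, g, hg⟩
  generalize Nat.find h0 = L at *
  have hinj : ∀ i j, i < j → j < L → f i ≠ f j := by
    intro i j hij hj he
    rcases Nat.even_or_odd (j - i) with hd | hd
    · refine hmin (L - (j - i)) (by omega) ?_ (fun t => if t ≤ i then f t else f (t + (j - i))) ?_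
      · rcases hodd with ⟨a, ha⟩
        rcases hd with ⟨b, hb⟩
        exact ⟨a - b, by omega⟩
      · refine ⟨?_, ?_⟩
        · intro t ht
          by_cases h1 : t + 1 ≤ i
          · have h2 : t ≤ i := by omega
            simp only [h1, h2, if_true]
            exact hf t (by omega)
          · by_cases h2 : t = i
            · subst h2
              have h3 : ¬ t + 1 ≤ t := by omega
              simp only [le_refl, if_true, h3, if_false]
              rw [he]
              have h4 : t + 1 + (j - t) = j + 1 := by omega
              rw [h4]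
              exact hf j hj
            · have h3 : ¬ t ≤ i := by omega
              simp only [h1, h3, if_false]
              have h4 : t + 1 + (j - i) = t + (j - i) + 1 := by omega
              rw [h4]
              exact hf _ (by omega)
        · have h1 : ¬ L - (j - i) ≤ i := by omega
          simp only [h1, if_false, Nat.zero_le, if_true]
          have h2 : L - (j - i) + (j - i) = L := by omega
          rw [h2]
          exact hcl
    · refine hmin (j - i) (by omega) hd (fun t => f (i + t)) ⟨?_, ?_⟩
      · intro t ht
        exact hf (i + t) (by omega)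
      · have h1 : i + (j - i) = j := by omega
        simp only [h1, Nat.add_zero]
        exact he.symm
  have h3 : 3 ≤ L := by
    rcases hodd with ⟨a, ha⟩
    by_contra h
    have h1 : L = 1 := by omega
    subst h1
    have h2 := hf 0 (by norm_num)
    rw [zero_add, hcl] at h2
    exact H.loopless.irrefl _ h2
  obtain ⟨m, rfl⟩ : ∃ m, L = m + 3 := ⟨L - 3, by omega⟩
  refine ⟨m, fun t => f t.val, hodd, ?_, ?_⟩
  · intro s t hst
    rcases lt_trichotomy s.val t.val with h | h | h
    · exact absurd hst (hinj _ _ h t.isLt)
    · exact Fin.ext h
    · exact absurd hst.symm (hinj _ _ h s.isLt)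
  · intro t
    show H.Adj (f t.val) (f (t + 1 : Fin (m + 3)).val)
    by_cases h : t.val + 1 < m + 3
    · have h1 : (t + 1 : Fin (m + 3)).val = t.val + 1 := by
        rw [Fin.val_add_one_of_lt']
        exact h
      rw [h1]
      exact hf _ (by omega)
    · have h1 : t = Fin.last (m + 2) := Fin.ext (by
        have := t.isLt
        rw [Fin.val_last]
        omega)
      rw [h1, Fin.last_add_one, Fin.val_last, Fin.val_zero]
      have h2 := hf (m + 2) (by omega)
      rwa [show m + 2 + 1 = m + 3 from rfl, hcl] at h2

end Pool.Agent.K1H77.KA
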